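import Mathlib

set_option autoImplicit false

/-!
Elementary inequalities for the comparison of the chi-squared divergence with the squared
Hellinger distance.
-/

open Real

namespace Pool.Agent.Q280.GM

lemma amgm4 {y w m : ℝ} (hm : 0 < m) (hw : 0 ≤ w) (hy : 0 ≤ y) :
    y ^ 3 * w ≤ 3 / 4 * m * y ^ 4 + 1 / 4 * (m ^ 3)⁻¹ * w ^ 4 := by
  have h : 0 ≤ (m * y - w) ^ 2 * (3 * (m * y) ^ 2 + 2 * (m * y) * w + w ^ 2) := by positivity
  have h2 : 3 / 4 * m * y ^ 4 + 1 / 4 * (m ^ 3)⁻¹ * w ^ 4 - y ^ 3 * w =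
      (m ^ 3)⁻¹ / 4 * ((m * y - w) ^ 2 * (3 * (m * y) ^ 2 + 2 * (m * y) * w + w ^ 2)) := by
    field_simp
    ring
  have h3 : 0 ≤ (m ^ 3)⁻¹ / 4 * ((m * y - w) ^ 2 * (3 * (m * y) ^ 2 + 2 * (m * y) * w + w ^ 2)) :=
    mul_nonneg (by positivity) h
  linarith

/-- pointwise bound of the chi-squared integrand -/
lemma chi_pt {u v m : ℝ} (hu : 0 ≤ u) (hv : 0 < v) (hm : 0 < m) :
    (u - v) ^ 2 / v ≤ 6 * (√u - √v) ^ 2 + (3 / 4 * m * (u - v) ^ 4 +
      1 / 4 * (m ^ 3)⁻¹ * (v ^ 8)⁻¹) := by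
  by_cases h : |u - v| ≤ v
  · have h1 : (u - v) ^ 2 / v ≤ 6 * (√u - √v) ^ 2 := by
      have su := sqrt_nonneg u
      have sv := sqrt_nonneg v
      have eu := mul_self_sqrt hu
      have ev := mul_self_sqrt hv.le
      have h2 : u ≤ 2 * v := by have := (abs_le.mp h).2; linarith
      have h3 : u - v = (√u - √v) * (√u + √v) := by nlinarith
      have h4 : (√u + √v) ^ 2 ≤ 6 * v := by
        have : √u * √v ≤ (3 / 2) * v := by
          have h5 : √u ≤ 3 / 2 * √v := by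
            rw [sqrt_le_left (by positivity), mul_pow, sq_sqrt hv.le]
            linarith
          nlinarith
        nlinarith
      rw [div_le_iff₀ hv, h3, mul_pow]
      nlinarith [sq_nonneg (√u - √v)]
    have h2 : 0 ≤ 3 / 4 * m * (u - v) ^ 4 + 1 / 4 * (m ^ 3)⁻¹ * (v ^ 8)⁻¹ := by positivity
    linarith
  · push Not at h
    have h1 : (u - v) ^ 2 / v ≤ |u - v| ^ 3 * (v ^ 2)⁻¹ := by
      rw [← sq_abs (u - v), div_eq_mul_inv]
      have : |u - v| ^ 3 * (v ^ 2)⁻¹ - |u - v| ^ 2 * v⁻¹ =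
          |u - v| ^ 2 * (v ^ 2)⁻¹ * (|u - v| - v) := by
        field_simp
      have h2 : 0 ≤ |u - v| ^ 2 * (v ^ 2)⁻¹ * (|u - v| - v) :=
        mul_nonneg (by positivity) (by linarith)
      linarith
    have h2 := amgm4 (y := |u - v|) (w := (v ^ 2)⁻¹) hm (by positivity) (abs_nonneg _)
    have h3 : |u - v| ^ 4 = (u - v) ^ 4 := by
      rw [show |u - v| ^ 4 = (|u - v| ^ 2) ^ 2 by ring, sq_abs]; ring
    have h4 : ((v ^ 2)⁻¹) ^ 4 = (v ^ 8)⁻¹ := by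
      rw [inv_pow]; ring
    rw [h3, h4] at h2
    have h5 : 0 ≤ 6 * (√u - √v) ^ 2 := by positivity
    linarith

lemma l1_pt {u v l : ℝ} (hu : 0 ≤ u) (hv : 0 ≤ v) (hl : 0 < l) :
    |u - v| ≤ l / 2 * (√u - √v) ^ 2 + l⁻¹ * (u + v) := by
  have eu := mul_self_sqrt hu
  have ev := mul_self_sqrt hv
  have h3 : u - v = (√u - √v) * (√u + √v) := by nlinarith
  have h4 : |u - v| = |√u - √v| * (√u + √v) := by
    rw [h3, abs_mul, abs_of_nonneg (show 0 ≤ √u + √v by positivity)]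
  have h5 : (√u + √v) ^ 2 ≤ 2 * (u + v) := by nlinarith [sq_nonneg (√u - √v)]
  have h6 : |√u - √v| * (√u + √v) ≤ l / 2 * (√u - √v) ^ 2 + l⁻¹ / 2 * (√u + √v) ^ 2 := by
    rw [← sq_abs (√u - √v)]
    have : l / 2 * |√u - √v| ^ 2 + l⁻¹ / 2 * (√u + √v) ^ 2 - |√u - √v| * (√u + √v) =
        l⁻¹ / 2 * (l * |√u - √v| - (√u + √v)) ^ 2 := by
      field_simp
      ring
    have h7 : 0 ≤ l⁻¹ / 2 * (l * |√u - √v| - (√u + √v)) ^ 2 := by positivity
    linarith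
  have h8 : l⁻¹ / 2 * (√u + √v) ^ 2 ≤ l⁻¹ * (u + v) := by
    have : 0 < l⁻¹ := inv_pos.mpr hl
    nlinarith
  linarith

lemma sq_pt {y t : ℝ} (ht : 0 < t) :
    y ^ 2 ≤ 2 / 3 * t * |y| + 1 / 3 * (t ^ 2)⁻¹ * y ^ 4 := by
  have h4 : y ^ 4 = |y| ^ 4 := by
    rw [show |y| ^ 4 = (|y| ^ 2) ^ 2 by ring, sq_abs]; ring
  rw [h4, ← sq_abs y]
  have hy := abs_nonneg y
  have : 2 / 3 * t * |y| + 1 / 3 * (t ^ 2)⁻¹ * |y| ^ 4 - |y| ^ 2 =
      1 / 3 * (t ^ 2)⁻¹ * (|y| * (|y| - t) ^ 2 * (|y| + 2 * t)) := by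
    field_simp
    ring
  have h7 : 0 ≤ 1 / 3 * (t ^ 2)⁻¹ * (|y| * (|y| - t) ^ 2 * (|y| + 2 * t)) := by positivity
  linarith

/-- the algebraic combination -/
lemma combine {a X H L c V K : ℝ} (ha : 0 ≤ a) (hX : 0 ≤ X) (hH : 0 ≤ H) (hL : 0 ≤ L)
    (hV : 1 ≤ V) (hK : 1 ≤ K)
    (h1 : ∀ l, 0 < l → L ≤ l / 2 * H + l⁻¹ * 2)
    (h2 : ∀ t, 0 < t → a ≤ 2 / 3 * t * L + 1 / 3 * (t ^ 2)⁻¹ * X ^ 2)
    (h3 : ∀ m, 0 < m → c ≤ 6 * H + (3 / 4 * m * X ^ 2 + 1 / 4 * (m ^ 3)⁻¹ * V))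
    (h4 : X ^ 7 ≤ a ^ 6 * K) :
    c ≤ (6 + 5 * K * V) * H := by
  have hKV : 0 ≤ 5 * K * V * H := by positivity
  rcases hX.eq_or_lt with hX0 | hX0
  · -- X = 0
    have h5 : c ≤ 6 * H := by
      refine le_of_forall_pos_le_add fun ε hε => ?_
      obtain ⟨m, hm⟩ : ∃ m, m = 1 + V / ε := ⟨_, rfl⟩
      have hVε : 0 < V / ε := by positivity
      have hm1 : 1 ≤ m := by linarith
      have h6 := h3 m (by linarith)
      rw [← hX0] at h6
      have h7 : (m ^ 3)⁻¹ * V ≤ ε := by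
        rw [inv_mul_le_iff₀ (by positivity)]
        have h8 : m ≤ m ^ 3 := by nlinarith [sq_nonneg (m - 1), mul_nonneg (by linarith : (0:ℝ) ≤ m) (by nlinarith : (0:ℝ) ≤ m ^ 2 - 1)]
        have h9 : V / ε ≤ m := by linarith
        rw [div_le_iff₀ hε] at h9
        nlinarith
      have h8 : 0 ≤ (m ^ 3)⁻¹ * V := by positivity
      nlinarith
    linarith
  · have hLH : L ^ 2 ≤ 4 * H := by
      rcases hH.eq_or_lt with hH0 | hH0
      · have : L ≤ 0 := by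
          refine le_of_forall_pos_le_add fun ε hε => ?_
          have h5 := h1 (2 / ε) (by positivity)
          rw [← hH0, mul_zero, zero_add, inv_div, div_mul_cancel₀ _ (by norm_num)] at h5
          linarith
        have : L = 0 := le_antisymm this hL
        rw [this, ← hH0]; norm_num
      · have hs : 0 < √H := sqrt_pos.mpr hH0
        have h5 := h1 (2 / √H) (by positivity)
        have e1 : 2 / √H / 2 * H = √H := by
          have := mul_self_sqrt hH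
          field_simp
          nlinarith
        rw [e1, inv_div, div_mul_cancel₀ _ (by norm_num)] at h5
        calc L ^ 2 ≤ (√H + √H) ^ 2 := pow_le_pow_left₀ hL h5 2
          _ = 4 * (√H * √H) := by ring
          _ = 4 * H := by rw [mul_self_sqrt hH]
    have hA : a ^ 3 ≤ 5 * X ^ 2 * H := by
      rcases ha.eq_or_lt with h0 | h0
      · rw [← h0, zero_pow (by norm_num)]; positivity
      · obtain ⟨t, ht⟩ : ∃ t, t = √(2 * X ^ 2 / (3 * a)) := ⟨_, rfl⟩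
        have ht0 : 0 < t := by rw [ht]; positivity
        have ht2 : t ^ 2 = 2 * X ^ 2 / (3 * a) := by rw [ht, sq_sqrt (by positivity)]
        have h5 := h2 t ht0
        rw [ht2] at h5
        have e1 : 1 / 3 * (2 * X ^ 2 / (3 * a))⁻¹ * X ^ 2 = a / 2 := by
          field_simp
        rw [e1] at h5
        have h6 : a / 2 ≤ 2 / 3 * t * L := by linarith
        have h7 : (a / 2) ^ 2 ≤ (2 / 3 * t * L) ^ 2 := pow_le_pow_left₀ (by positivity) h6 2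
        have h8 : (2 / 3 * t * L) ^ 2 = 4 / 9 * t ^ 2 * L ^ 2 := by ring
        rw [h8, ht2] at h7
        have h9 : 4 / 9 * (2 * X ^ 2 / (3 * a)) * L ^ 2 ≤ 4 / 9 * (2 * X ^ 2 / (3 * a)) * (4 * H) :=
          mul_le_mul_of_nonneg_left hLH (by positivity)
        have h10 : (a / 2) ^ 2 ≤ 32 / 27 * X ^ 2 * H / a := by
          refine h7.trans (h9.trans_eq ?_)
          field_simp
          ring
        rw [le_div_iff₀ h0] at h10
        have h11 : 0 ≤ X ^ 2 * H := by positivity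
        nlinarith
    obtain ⟨Y, hY⟩ : ∃ Y, Y = √X := ⟨_, rfl⟩
    have hY0 : 0 < Y := by rw [hY]; exact sqrt_pos.mpr hX0
    have hYX : Y ^ 2 = X := by rw [hY, sq_sqrt hX]
    have h5 : Y ^ 7 ≤ a ^ 3 * K := by
      have h6 : (Y ^ 7) ^ 2 ≤ (a ^ 3 * K) ^ 2 := by
        calc (Y ^ 7) ^ 2 = (Y ^ 2) ^ 7 := by ring
          _ = X ^ 7 := by rw [hYX]
          _ ≤ a ^ 6 * K := h4
          _ ≤ a ^ 6 * K ^ 2 := mul_le_mul_of_nonneg_left (by nlinarith) (by positivity)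
          _ = _ := by ring
      exact le_of_sq_le_sq h6 (by positivity)
    have h6 : Y ^ 3 ≤ 5 * K * H := by
      have h7 : Y ^ 3 * X ^ 2 ≤ 5 * K * H * X ^ 2 := by
        calc Y ^ 3 * X ^ 2 = Y ^ 3 * (Y ^ 2) ^ 2 := by rw [hYX]
          _ = Y ^ 7 := by ring
          _ ≤ a ^ 3 * K := h5
          _ ≤ 5 * X ^ 2 * H * K := mul_le_mul_of_nonneg_right hA (by linarith)
          _ = _ := by ring
      exact le_of_mul_le_mul_right h7 (by positivity)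
    have h7 := h3 Y⁻¹ (inv_pos.mpr hY0)
    have e1 : 3 / 4 * Y⁻¹ * X ^ 2 = 3 / 4 * Y ^ 3 := by
      rw [← hYX]; field_simp
    have e2 : 1 / 4 * ((Y⁻¹) ^ 3)⁻¹ * V = 1 / 4 * Y ^ 3 * V := by
      rw [inv_pow, inv_inv]
    rw [e1, e2] at h7
    have h8 : 0 ≤ Y ^ 3 := by positivity
    have h9 : Y ^ 3 * V ≤ 5 * K * H * V := mul_le_mul_of_nonneg_right h6 (by linarith)
    have h10 : Y ^ 3 ≤ Y ^ 3 * V := le_mul_of_one_le_right h8 hV
    nlinarith

end Pool.Agent.Q280.GM
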