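import Pool.Agent.Q280.GM.Hyper
import Pool.Agent.Q280.GM.Alg

set_option autoImplicit false

/-!
The comparison of divergences for mixtures with finitely many atoms.
-/

open MeasureTheory Real
open scoped RealInnerProductSpace

namespace Pool.Agent.Q280.GM

/-- auxiliary constant -/
noncomputable def K2 (M : ℝ) : ℝ := 4 * exp (M ^ 2) * (4 * exp (6561 * M ^ 2)) ^ 7

/-- the constant of the theorem -/
noncomputable def CM (M : ℝ) : ℝ := 6 + 5 * K2 M * exp (36 * M ^ 2)

variable {d : ℕ} {ι : Type*} [Fintype ι]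

lemma one_le_K2 (M : ℝ) : 1 ≤ K2 M := by
  unfold K2
  have h1 : 1 ≤ exp (M ^ 2) := one_le_exp (sq_nonneg M)
  have h2 : 1 ≤ exp (6561 * M ^ 2) := one_le_exp (by positivity)
  have h3 : 1 ≤ (4 * exp (6561 * M ^ 2)) ^ 7 := one_le_pow₀ (by linarith)
  nlinarith

lemma one_le_CM (M : ℝ) : 0 ≤ CM M := by
  unfold CM
  have h1 := one_le_K2 M
  have h2 := exp_pos (36 * M ^ 2)
  have : 0 ≤ K2 M * exp (36 * M ^ 2) := by positivity
  nlinarith

lemma SS_le (g : ι → ℝ) (z : ι → Sp d) {M t : ℝ} (ht : 0 ≤ t)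
    (hz : ∀ i, ‖z i‖ ≤ M) : SS g z t ≤ (∑ i, |g i|) ^ 2 * exp (t * M ^ 2) := by
  unfold SS
  rw [sq, Finset.sum_mul_sum, Finset.sum_mul]
  refine Finset.sum_le_sum fun i _ => ?_
  rw [Finset.sum_mul]
  refine Finset.sum_le_sum fun j _ => ?_
  have h1 : g i * g j ≤ |g i| * |g j| := by rw [← abs_mul]; exact le_abs_self _
  have hM : 0 ≤ M := (norm_nonneg _).trans (hz i)
  have h2 : t * ⟪z i, z j⟫ ≤ t * M ^ 2 := by
    apply mul_le_mul_of_nonneg_left _ ht
    calc ⟪z i, z j⟫ ≤ ‖z i‖ * ‖z j‖ := real_inner_le_norm _ _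
      _ ≤ M * M := mul_le_mul (hz i) (hz j) (norm_nonneg _) hM
      _ = M ^ 2 := by ring
  calc g i * g j * exp (t * ⟪z i, z j⟫) ≤ |g i| * |g j| * exp (t * ⟪z i, z j⟫) :=
        mul_le_mul_of_nonneg_right h1 (exp_pos _).le
    _ ≤ |g i| * |g j| * exp (t * M ^ 2) :=
        mul_le_mul_of_nonneg_left (exp_le_exp.mpr h2) (by positivity)

lemma X7 (g : ι → ℝ) (z : ι → Sp d) {M : ℝ} (hz : ∀ i, ‖z i‖ ≤ M) (hg : ∑ i, |g i| ≤ 2) :
    SS g z 3 ^ 7 ≤ SS g z 1 ^ 6 * K2 M := by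
  have h8 := SS_pow8 g z
  have a0 : 0 ≤ SS g z 1 := SS_nonneg g z (by norm_num)
  have x0 : 0 ≤ SS g z 3 := SS_nonneg g z (by norm_num)
  have c0 : 0 ≤ SS g z 6561 := SS_nonneg g z (by norm_num)
  have hg0 : 0 ≤ ∑ i, |g i| := Finset.sum_nonneg fun i _ => abs_nonneg _
  have hg2 : (∑ i, |g i|) ^ 2 ≤ 4 := by nlinarith
  have a1 : SS g z 1 ≤ 4 * exp (M ^ 2) := by
    have := SS_le g z (t := 1) (by norm_num) hz
    rw [one_mul] at this
    exact this.trans (mul_le_mul_of_nonneg_right hg2 (exp_pos _).le)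
  have c1 : SS g z 6561 ≤ 4 * exp (6561 * M ^ 2) := by
    have := SS_le g z (t := 6561) (by norm_num) hz
    exact this.trans (mul_le_mul_of_nonneg_right hg2 (exp_pos _).le)
  have hK := one_le_K2 M
  have h : (SS g z 3 ^ 7) ^ 8 ≤ (SS g z 1 ^ 6 * K2 M) ^ 8 := by
    calc (SS g z 3 ^ 7) ^ 8 = (SS g z 3 ^ 8) ^ 7 := by ring
      _ ≤ (SS g z 1 ^ 7 * SS g z 6561) ^ 7 := pow_le_pow_left₀ (by positivity) h8 7
      _ = (SS g z 1 ^ 6) ^ 8 * (SS g z 1 * SS g z 6561 ^ 7) := by ring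
      _ ≤ (SS g z 1 ^ 6) ^ 8 * (4 * exp (M ^ 2) * (4 * exp (6561 * M ^ 2)) ^ 7) := by
          apply mul_le_mul_of_nonneg_left _ (by positivity)
          exact mul_le_mul a1 (pow_le_pow_left₀ c0 c1 7) (by positivity) (by positivity)
      _ = (SS g z 1 ^ 6) ^ 8 * K2 M := rfl
      _ ≤ (SS g z 1 ^ 6) ^ 8 * K2 M ^ 8 := by
          apply mul_le_mul_of_nonneg_left _ (by positivity)
          exact le_self_pow₀ hK (by norm_num)
      _ = _ := by ring
  exact le_of_pow_le_pow_left₀ (by norm_num) (by positivity) h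

lemma inv_ee (z x : Sp d) : (ee z x ^ 8)⁻¹ = exp (36 * ‖z‖ ^ 2) * ee ((-8 : ℝ) • z) x := by
  unfold ee
  rw [← exp_nat_mul, ← exp_neg, ← exp_add, real_inner_smul_right, norm_smul]
  congr 1
  norm_num
  ring

/-- mixture ratio -/
noncomputable def mr (p : ι → ℝ) (z : ι → Sp d) (x : Sp d) : ℝ := ∑ i, p i * ee (z i) x

lemma continuous_mr (p : ι → ℝ) (z : ι → Sp d) : Continuous (mr p z) := by
  unfold mr
  exact continuous_finsetSum _ fun i _ => (continuous_ee _).const_mul _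

lemma mr_nonneg {p : ι → ℝ} (hp : ∀ i, 0 ≤ p i) (z : ι → Sp d) (x : Sp d) : 0 ≤ mr p z x :=
  Finset.sum_nonneg fun i _ => mul_nonneg (hp i) (ee_pos _ _).le

lemma mr_pos {p : ι → ℝ} (hp : ∀ i, 0 ≤ p i) (sp : ∑ i, p i = 1) (z : ι → Sp d) (x : Sp d) :
    0 < mr p z x := by
  rcases (mr_nonneg hp z x).eq_or_lt with h | h
  · exfalso
    have h1 := (Finset.sum_eq_zero_iff_of_nonneg
      (fun i _ => mul_nonneg (hp i) (ee_pos (z i) x).le)).mp h.symm
    have h2 : ∑ i, p i = 0 := Finset.sum_eq_zero fun i hi => by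
      rcases mul_eq_zero.mp (h1 i hi) with h3 | h3
      · exact h3
      · exact absurd h3 (ee_pos _ _).ne'
    linarith
  · exact h

lemma int_mr {p : ι → ℝ} (sp : ∑ i, p i = 1) (z : ι → Sp d) :
    Integrable (fun x => mr p z x * rho x) ∧ ∫ x, mr p z x * rho x = 1 := by
  have h := hasIntegral (Finset.univ : Finset ι) p (fun _ => (0 : Sp d)) z
  have e : (fun x => (∑ k, p k * (ee (0 : Sp d) x * ee (z k) x)) * rho x) =
      fun x => mr p z x * rho x := by
    ext x; simp only [ee_zero, one_mul]; rfl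
  rw [e] at h
  refine ⟨h.1, h.2.trans ?_⟩
  simp [sp]

lemma int_inv {q : ι → ℝ} (hq : ∀ i, 0 ≤ q i) (sq : ∑ i, q i = 1) (z : ι → Sp d) {M : ℝ}
    (hz : ∀ i, ‖z i‖ ≤ M) :
    Integrable (fun x => (mr q z x ^ 8)⁻¹ * rho x) ∧
    ∫ x, (mr q z x ^ 8)⁻¹ * rho x ≤ exp (36 * M ^ 2) := by
  have hb : ∀ x, (mr q z x ^ 8)⁻¹ * rho x ≤
      (∑ i, (q i * exp (36 * ‖z i‖ ^ 2)) * (ee 0 x * ee ((-8 : ℝ) • z i) x)) * rho x := by
    intro x
    apply mul_le_mul_of_nonneg_right _ (rho_pos x).le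
    have h1 := (convexOn_zpow (𝕜 := ℝ) (-8)).map_sum_le (t := Finset.univ) (w := q)
      (p := fun i => ee (z i) x) (fun i _ => hq i) sq (fun i _ => ee_pos _ _)
    simp only [smul_eq_mul] at h1
    have e1 : ∀ y : ℝ, y ^ (-8 : ℤ) = (y ^ 8)⁻¹ := fun y => by
      rw [zpow_neg]; rfl
    simp only [e1] at h1
    unfold mr
    refine h1.trans_eq ?_
    refine Finset.sum_congr rfl fun i _ => ?_
    rw [inv_ee, ee_zero]
    ring
  have h := hasIntegral (Finset.univ : Finset ι) (fun i => q i * exp (36 * ‖z i‖ ^ 2))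
    (fun _ => (0 : Sp d)) (fun i => (-8 : ℝ) • z i)
  have hpos : ∀ x, 0 < mr q z x := mr_pos hq sq z
  have hint : Integrable (fun x => (mr q z x ^ 8)⁻¹ * rho x) := by
    refine h.1.mono' ?_ (Filter.Eventually.of_forall fun x => ?_)
    · apply Continuous.aestronglyMeasurable
      exact (((continuous_mr q z).pow 8).inv₀ fun x => (pow_pos (hpos x) 8).ne').mul continuous_rho
    · rw [norm_of_nonneg (mul_nonneg (inv_nonneg.mpr (pow_nonneg (hpos x).le 8)) (rho_pos x).le)]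
      exact hb x
  refine ⟨hint, (integral_mono hint h.1 hb).trans ?_⟩
  rw [h.2]
  calc ∑ k, q k * exp (36 * ‖z k‖ ^ 2) * exp ⟪(0 : Sp d), (-8 : ℝ) • z k⟫
      ≤ ∑ k, q k * exp (36 * M ^ 2) := by
        refine Finset.sum_le_sum fun i _ => ?_
        rw [inner_zero_left, exp_zero, mul_one]
        apply mul_le_mul_of_nonneg_left _ (hq i)
        rw [exp_le_exp]
        have := pow_le_pow_left₀ (norm_nonneg _) (hz i) 2
        linarith
    _ = exp (36 * M ^ 2) := by rw [← Finset.sum_mul, sq, one_mul]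

theorem finite_bound {p q : ι → ℝ} (hp : ∀ i, 0 ≤ p i) (hq : ∀ i, 0 ≤ q i)
    (sp : ∑ i, p i = 1) (sq : ∑ i, q i = 1) (z : ι → Sp d) {M : ℝ} (hz : ∀ i, ‖z i‖ ≤ M) :
    Integrable (fun x => (mr p z x - mr q z x) ^ 2 / mr q z x * rho x) ∧
    ∫ x, (mr p z x - mr q z x) ^ 2 / mr q z x * rho x ≤
      CM M * ∫ x, (√(mr p z x) - √(mr q z x)) ^ 2 * rho x := by
  obtain ⟨g, hg⟩ : ∃ g : ι → ℝ, g = fun i => p i - q i := ⟨_, rfl⟩
  have hh : ∀ x, mr p z x - mr q z x = ∑ i, g i * ee (z i) x := by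
    intro x
    unfold mr
    rw [← Finset.sum_sub_distrib, hg]
    exact Finset.sum_congr rfl fun i _ => by ring
  have hgs : ∑ i, |g i| ≤ 2 := by
    calc ∑ i, |g i| ≤ ∑ i, (p i + q i) := Finset.sum_le_sum fun i _ => by
          rw [hg, abs_le]
          constructor <;> simp only [] <;> linarith [hp i, hq i]
      _ = 2 := by rw [Finset.sum_add_distrib, sp, sq]; norm_num
  have hu := mr_nonneg hp z
  have hv := mr_pos hq sq z
  have hρ : ∀ x : Sp d, 0 ≤ rho x := fun x => (rho_pos x).le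
  obtain ⟨i2, e2⟩ := second g z
  obtain ⟨i4, e4⟩ := fourth g z
  simp only [← hh] at i2 e2 i4 e4
  obtain ⟨iu, eu⟩ := int_mr sp z
  obtain ⟨iv, ev⟩ := int_mr sq z
  obtain ⟨i8, e8⟩ := int_inv hq sq z hz
  have cu := continuous_mr p z
  have cv := continuous_mr q z
  -- Hellinger
  have iH : Integrable (fun x => (√(mr p z x) - √(mr q z x)) ^ 2 * rho x) := by
    refine (iu.add iv).mono' ?_ (Filter.Eventually.of_forall fun x => ?_)
    · exact (((cu.sqrt.sub cv.sqrt).pow 2).mul continuous_rho).aestronglyMeasurable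
    · rw [norm_of_nonneg (mul_nonneg (sq_nonneg _) (hρ x))]
      simp only [Pi.add_apply]
      rw [← add_mul]
      apply mul_le_mul_of_nonneg_right _ (hρ x)
      have a1 := mul_self_sqrt (hu x)
      have a2 := mul_self_sqrt (hv x).le
      have a3 := mul_nonneg (sqrt_nonneg (mr p z x)) (sqrt_nonneg (mr q z x))
      nlinarith
  have iL : Integrable (fun x => |mr p z x - mr q z x| * rho x) := by
    refine (iu.add iv).mono' ?_ (Filter.Eventually.of_forall fun x => ?_)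
    · exact (((cu.sub cv).abs).mul continuous_rho).aestronglyMeasurable
    · rw [norm_of_nonneg (mul_nonneg (abs_nonneg _) (hρ x))]
      simp only [Pi.add_apply]
      rw [← add_mul]
      apply mul_le_mul_of_nonneg_right _ (hρ x)
      rw [abs_le]
      constructor <;> linarith [hu x, (hv x).le]
  have ic : Integrable (fun x => (mr p z x - mr q z x) ^ 2 / mr q z x * rho x) := by
    refine (((iH.const_mul 6).add ((i4.const_mul (3 / 4)).add (i8.const_mul (1 / 4))))).mono' ?_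
      (Filter.Eventually.of_forall fun x => ?_)
    · exact ((((cu.sub cv).pow 2).div cv fun x => (hv x).ne').mul
        continuous_rho).aestronglyMeasurable
    · rw [norm_of_nonneg (mul_nonneg (div_nonneg (sq_nonneg _) (hv x).le) (hρ x))]
      have := mul_le_mul_of_nonneg_right (chi_pt (hu x) (hv x) (m := 1) one_pos) (hρ x)
      refine this.trans_eq ?_
      simp only [Pi.add_apply]
      norm_num
      ring
  refine ⟨ic, ?_⟩
  set H := ∫ x, (√(mr p z x) - √(mr q z x)) ^ 2 * rho x with hH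
  have hH0 : 0 ≤ H := integral_nonneg fun x => mul_nonneg (sq_nonneg _) (hρ x)
  have hL0 : 0 ≤ ∫ x, |mr p z x - mr q z x| * rho x :=
    integral_nonneg fun x => mul_nonneg (abs_nonneg _) (hρ x)
  have a0 : 0 ≤ SS g z 1 := SS_nonneg g z (by norm_num)
  have x0 : 0 ≤ SS g z 3 := SS_nonneg g z (by norm_num)
  have hV : 1 ≤ exp (36 * M ^ 2) := one_le_exp (by positivity)
  refine combine (a := SS g z 1) (X := SS g z 3) (L := ∫ x, |mr p z x - mr q z x| * rho x)
    a0 x0 hH0 hL0 hV (one_le_K2 M) ?_ ?_ ?_ (X7 g z hz hgs)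
  · intro l hl
    have h1 : ∀ x, |mr p z x - mr q z x| * rho x ≤
        l / 2 * ((√(mr p z x) - √(mr q z x)) ^ 2 * rho x) +
        l⁻¹ * (mr p z x * rho x + mr q z x * rho x) := by
      intro x
      have := mul_le_mul_of_nonneg_right (l1_pt (hu x) (hv x).le hl) (hρ x)
      refine this.trans_eq ?_
      ring
    have iuv : Integrable (fun x => mr p z x * rho x + mr q z x * rho x) := iu.add iv
    have isum : Integrable (fun x => l / 2 * ((√(mr p z x) - √(mr q z x)) ^ 2 * rho x) +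
        l⁻¹ * (mr p z x * rho x + mr q z x * rho x)) :=
      (iH.const_mul (l / 2)).add (iuv.const_mul l⁻¹)
    have h2 := integral_mono iL isum h1
    refine h2.trans_eq ?_
    rw [integral_add (iH.const_mul (l / 2)) (iuv.const_mul l⁻¹), integral_const_mul,
      integral_const_mul, integral_add iu iv, eu, ev, ← hH]
    norm_num
  · intro t ht
    have h1 : ∀ x, (mr p z x - mr q z x) ^ 2 * rho x ≤
        2 / 3 * t * (|mr p z x - mr q z x| * rho x) +
        1 / 3 * (t ^ 2)⁻¹ * ((mr p z x - mr q z x) ^ 4 * rho x) := by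
      intro x
      have := mul_le_mul_of_nonneg_right (sq_pt (y := mr p z x - mr q z x) ht) (hρ x)
      refine this.trans_eq ?_
      ring
    have isum : Integrable (fun x => 2 / 3 * t * (|mr p z x - mr q z x| * rho x) +
        1 / 3 * (t ^ 2)⁻¹ * ((mr p z x - mr q z x) ^ 4 * rho x)) :=
      (iL.const_mul (2 / 3 * t)).add (i4.const_mul (1 / 3 * (t ^ 2)⁻¹))
    have h2 := integral_mono i2 isum h1
    rw [e2] at h2
    refine h2.trans ?_
    rw [integral_add (iL.const_mul (2 / 3 * t)) (i4.const_mul (1 / 3 * (t ^ 2)⁻¹)),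
      integral_const_mul, integral_const_mul]
    have := mul_le_mul_of_nonneg_left e4 (show 0 ≤ 1 / 3 * (t ^ 2)⁻¹ by positivity)
    linarith
  · intro m hm
    have h1 : ∀ x, (mr p z x - mr q z x) ^ 2 / mr q z x * rho x ≤
        6 * ((√(mr p z x) - √(mr q z x)) ^ 2 * rho x) +
        (3 / 4 * m * ((mr p z x - mr q z x) ^ 4 * rho x) +
        1 / 4 * (m ^ 3)⁻¹ * ((mr q z x ^ 8)⁻¹ * rho x)) := by
      intro x
      have := mul_le_mul_of_nonneg_right (chi_pt (hu x) (hv x) hm) (hρ x)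
      refine this.trans_eq ?_
      ring
    have i48 : Integrable (fun x => 3 / 4 * m * ((mr p z x - mr q z x) ^ 4 * rho x) +
        1 / 4 * (m ^ 3)⁻¹ * ((mr q z x ^ 8)⁻¹ * rho x)) :=
      (i4.const_mul (3 / 4 * m)).add (i8.const_mul (1 / 4 * (m ^ 3)⁻¹))
    have isum : Integrable (fun x => 6 * ((√(mr p z x) - √(mr q z x)) ^ 2 * rho x) +
        (3 / 4 * m * ((mr p z x - mr q z x) ^ 4 * rho x) +
        1 / 4 * (m ^ 3)⁻¹ * ((mr q z x ^ 8)⁻¹ * rho x))) := (iH.const_mul 6).add i48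
    have h2 := integral_mono ic isum h1
    refine h2.trans ?_
    rw [integral_add (iH.const_mul 6) i48, integral_const_mul, integral_add (i4.const_mul (3 / 4 * m)) (i8.const_mul (1 / 4 * (m ^ 3)⁻¹)),
      integral_const_mul, integral_const_mul]
    have b1 := mul_le_mul_of_nonneg_left e4 (show 0 ≤ 3 / 4 * m by positivity)
    have b2 := mul_le_mul_of_nonneg_left e8 (show 0 ≤ 1 / 4 * (m ^ 3)⁻¹ by positivity)
    linarith

end Pool.Agent.Q280.GM
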