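import Mathlib

set_option autoImplicit false

/-!
Gaussian density on Euclidean space and exponential functions.
-/

open MeasureTheory Real
open scoped RealInnerProductSpace

namespace Pool.Agent.Q280.GM

/-- Euclidean space -/
abbrev Sp (d : ℕ) := EuclideanSpace ℝ (Fin d)

variable {d : ℕ}

/-- density of `N(0, I_d)` -/
noncomputable def rho (x : Sp d) : ℝ := (2 * π) ^ (-(d : ℝ) / 2) * exp (-‖x‖ ^ 2 / 2)

/-- the exponential `exp (⟨x, z⟩ - |z|²/2)` -/
noncomputable def ee (z x : Sp d) : ℝ := exp (⟪x, z⟫ - ‖z‖ ^ 2 / 2)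

lemma rho_pos (x : Sp d) : 0 < rho x := by
  unfold rho; positivity

lemma ee_pos (z x : Sp d) : 0 < ee z x := exp_pos _

lemma continuous_rho : Continuous (rho : Sp d → ℝ) := by
  unfold rho; fun_prop

lemma continuous_ee (z : Sp d) : Continuous (ee z) := by
  unfold ee; fun_prop

lemma integrable_exp_half {b : ℝ} (hb : 0 < b) :
    Integrable (fun x : Sp d => exp (-b * ‖x‖ ^ 2)) := by
  by_contra h
  have h1 := GaussianFourier.integral_rexp_neg_mul_sq_norm (V := Sp d) hb
  rw [integral_undef h] at h1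
  have : 0 < (π / b) ^ ((Module.finrank ℝ (Sp d) : ℝ) / 2) := by positivity
  linarith

lemma integrable_rho : Integrable (rho : Sp d → ℝ) := by
  have := (integrable_exp_half (d := d) (b := 1 / 2) (by norm_num)).const_mul
    ((2 * π) ^ (-(d : ℝ) / 2))
  refine this.congr (Filter.Eventually.of_forall fun x => ?_)
  simp only [rho]
  congr 2
  ring

lemma integral_rho : ∫ x : Sp d, rho x = 1 := by
  unfold rho
  rw [integral_const_mul]
  have h1 := GaussianFourier.integral_rexp_neg_mul_sq_norm (V := Sp d) (b := 1 / 2) (by norm_num)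
  have h2 : (fun x : Sp d => exp (-‖x‖ ^ 2 / 2)) = fun x => exp (-(1 / 2) * ‖x‖ ^ 2) := by
    ext x; congr 1; ring
  rw [h2, h1, finrank_euclideanSpace_fin, show π / (1 / 2) = 2 * π by ring,
    ← rpow_add (by positivity)]
  rw [show -(d : ℝ) / 2 + (d : ℝ) / 2 = 0 by ring, rpow_zero]

lemma rho_sub (x z : Sp d) : rho (x - z) = ee z x * rho x := by
  unfold rho ee
  rw [show exp (⟪x, z⟫ - ‖z‖ ^ 2 / 2) * ((2 * π) ^ (-(d : ℝ) / 2) * exp (-‖x‖ ^ 2 / 2)) =
    (2 * π) ^ (-(d : ℝ) / 2) * (exp (⟪x, z⟫ - ‖z‖ ^ 2 / 2) * exp (-‖x‖ ^ 2 / 2)) by ring,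
    ← exp_add, norm_sub_sq_real]
  congr 2
  ring

lemma integrable_ee (z : Sp d) : Integrable (fun x => ee z x * rho x) := by
  refine (integrable_rho.comp_sub_right z).congr (Filter.Eventually.of_forall fun x => ?_)
  exact rho_sub x z

lemma integral_ee (z : Sp d) : ∫ x, ee z x * rho x = 1 := by
  rw [← integral_rho (d := d), ← integral_sub_right_eq_self rho z]
  simp_rw [rho_sub]

lemma ee_mul (z w x : Sp d) : ee z x * ee w x = exp ⟪z, w⟫ * ee (z + w) x := by
  unfold ee
  rw [← exp_add, ← exp_add, inner_add_right, norm_add_sq_real]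
  congr 1
  ring

lemma ee_zero (x : Sp d) : ee 0 x = 1 := by
  unfold ee; simp

/-- integration of a finite sum -/
lemma hasIntegral {κ : Type*} (s : Finset κ) (c : κ → ℝ) (u v : κ → Sp d) :
    Integrable (fun x => (∑ k ∈ s, c k * (ee (u k) x * ee (v k) x)) * rho x) ∧
    ∫ x, (∑ k ∈ s, c k * (ee (u k) x * ee (v k) x)) * rho x = ∑ k ∈ s, c k * exp ⟪u k, v k⟫ := by
  have h : (fun x => (∑ k ∈ s, c k * (ee (u k) x * ee (v k) x)) * rho x) =
      fun x => ∑ k ∈ s, (c k * exp ⟪u k, v k⟫) * (ee (u k + v k) x * rho x) := by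
    ext x
    rw [Finset.sum_mul]
    refine Finset.sum_congr rfl fun k _ => ?_
    rw [ee_mul]; ring
  rw [h]
  refine ⟨integrable_finsetSum _ fun k _ => (integrable_ee _).const_mul _, ?_⟩
  rw [integral_finsetSum _ fun k _ => (integrable_ee _).const_mul _]
  refine Finset.sum_congr rfl fun k _ => ?_
  rw [integral_const_mul, integral_ee, mul_one]

/-- pointwise positivity implies positivity of the Gaussian average -/
lemma int_pos {κ : Type*} (s : Finset κ) (c : κ → ℝ) (u v : κ → Sp d)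
    (h : ∀ x, 0 ≤ ∑ k ∈ s, c k * (ee (u k) x * ee (v k) x)) :
    0 ≤ ∑ k ∈ s, c k * exp ⟪u k, v k⟫ := by
  rw [← (hasIntegral s c u v).2]
  exact integral_nonneg fun x => mul_nonneg (h x) (rho_pos x).le

section psd

variable {ι : Type*} [Fintype ι]

lemma psd (a : ι → ℝ) (z : ι → Sp d) : 0 ≤ ∑ i, ∑ j, a i * a j * exp ⟪z i, z j⟫ := by
  rw [← Fintype.sum_prod_type' (f := fun i j => a i * a j * exp ⟪z i, z j⟫)]
  refine int_pos Finset.univ (fun p : ι × ι => a p.1 * a p.2) (fun p => z p.1) (fun p => z p.2) ?_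
  intro x
  have : ∑ k : ι × ι, a k.1 * a k.2 * (ee (z k.1) x * ee (z k.2) x) =
      (∑ i, a i * ee (z i) x) * ∑ j, a j * ee (z j) x := by
    rw [Finset.sum_mul_sum, ← Fintype.sum_prod_type']
    refine Finset.sum_congr rfl fun k _ => ?_
    ring
  rw [this]
  exact mul_self_nonneg _

/-- Cauchy-Schwarz for the exponential kernel -/
lemma kcs (a b : ι → ℝ) (z w : ι → Sp d) :
    (∑ i, ∑ j, a i * b j * exp ⟪z i, w j⟫) ^ 2 ≤
      (∑ i, ∑ j, a i * a j * exp ⟪z i, z j⟫) * ∑ i, ∑ j, b i * b j * exp ⟪w i, w j⟫ := by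
  set A := ∑ i, ∑ j, a i * a j * exp ⟪z i, z j⟫ with hA
  set B := ∑ i, ∑ j, b i * b j * exp ⟪w i, w j⟫ with hB
  set C := ∑ i, ∑ j, a i * b j * exp ⟪z i, w j⟫ with hC
  have key : ∀ s t : ℝ, 0 ≤ s ^ 2 * A + 2 * (s * t) * C + t ^ 2 * B := by
    intro s t
    have h := psd (fun k : ι ⊕ ι => Sum.elim (fun i => s * a i) (fun j => t * b j) k)
      (fun k : ι ⊕ ι => Sum.elim z w k)
    simp only [Fintype.sum_sum_type, Sum.elim_inl, Sum.elim_inr, Finset.sum_add_distrib] at h
    have e1 : ∑ x, ∑ y, s * a x * (s * a y) * exp ⟪z x, z y⟫ = s ^ 2 * A := by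
      rw [hA, Finset.mul_sum]
      refine Finset.sum_congr rfl fun i _ => ?_
      rw [Finset.mul_sum]
      refine Finset.sum_congr rfl fun j _ => ?_
      ring
    have e2 : ∑ x, ∑ y, s * a x * (t * b y) * exp ⟪z x, w y⟫ = s * t * C := by
      rw [hC, Finset.mul_sum]
      refine Finset.sum_congr rfl fun i _ => ?_
      rw [Finset.mul_sum]
      refine Finset.sum_congr rfl fun j _ => ?_
      ring
    have e3 : ∑ x, ∑ y, t * b x * (s * a y) * exp ⟪w x, z y⟫ = s * t * C := by
      rw [hC, Finset.sum_comm, Finset.mul_sum]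
      refine Finset.sum_congr rfl fun i _ => ?_
      rw [Finset.mul_sum]
      refine Finset.sum_congr rfl fun j _ => ?_
      rw [real_inner_comm]
      ring
    have e4 : ∑ x, ∑ y, t * b x * (t * b y) * exp ⟪w x, w y⟫ = t ^ 2 * B := by
      rw [hB, Finset.mul_sum]
      refine Finset.sum_congr rfl fun i _ => ?_
      rw [Finset.mul_sum]
      refine Finset.sum_congr rfl fun j _ => ?_
      ring
    rw [e1, e2, e3, e4] at h
    linarith
  have hA0 : 0 ≤ A := psd a z
  have hB0 : 0 ≤ B := psd b w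
  rcases hA0.eq_or_lt with h0 | h0
  · have h1 : C = 0 := by
      by_contra hne
      have h2 := key (-(B + 1) / C) 1
      have h3 : -(B + 1) / C * 1 * C = -(B + 1) := by field_simp
      rw [← h0, mul_zero, mul_assoc, h3] at h2
      linarith
    rw [h1, ← h0]
    simp
  · have h2 := key (-C) A
    have h3 : (-C) ^ 2 * A + 2 * (-C * A) * C + A ^ 2 * B = A * (A * B - C ^ 2) := by ring
    rw [h3] at h2
    have h4 := nonneg_of_mul_nonneg_right h2 h0
    linarith

end psd

end Pool.Agent.Q280.GM
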