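import Pool.Agent.Q280.GM.Gauss

set_option autoImplicit false

/-!
The fourth moment of a finite sum of Gaussian exponentials.
-/

open MeasureTheory Real
open scoped RealInnerProductSpace

namespace Pool.Agent.Q280.GM

variable {d : ℕ} {ι : Type*} [Fintype ι]

lemma int_pos2 (c : ι → ι → ℝ) (w : ι → Sp d)
    (h : ∀ x, 0 ≤ ∑ i, ∑ j, c i j * (ee (w i) x * ee (w j) x)) :
    0 ≤ ∑ i, ∑ j, c i j * exp ⟪w i, w j⟫ := by
  have h1 := int_pos (Finset.univ : Finset (ι × ι)) (fun p => c p.1 p.2) (fun p => w p.1)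
    (fun p => w p.2) (by
      intro x
      rw [Fintype.sum_prod_type' (f := fun i j => c i j * (ee (w i) x * ee (w j) x))]
      exact h x)
  rwa [Fintype.sum_prod_type' (f := fun i j => c i j * exp ⟪w i, w j⟫)] at h1

/-- the quadratic form of the kernel `exp (t ⟨z, w⟩)` -/
noncomputable def SS (g : ι → ℝ) (z : ι → Sp d) (t : ℝ) : ℝ :=
  ∑ i, ∑ j, g i * g j * exp (t * ⟪z i, z j⟫)

lemma SS_nonneg (g : ι → ℝ) (z : ι → Sp d) {t : ℝ} (ht : 0 ≤ t) : 0 ≤ SS g z t := by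
  have h := psd g (fun i => √t • z i)
  unfold SS
  refine h.trans_eq ?_
  refine Finset.sum_congr rfl fun i _ => Finset.sum_congr rfl fun j _ => ?_
  rw [real_inner_smul_left, real_inner_smul_right, ← mul_assoc, mul_self_sqrt ht]

lemma SS_cs (g : ι → ℝ) (z : ι → Sp d) (t : ℝ) :
    SS g z t ^ 2 ≤ SS g z 1 * SS g z (t ^ 2) := by
  have h := kcs g g z (fun i => t • z i)
  unfold SS
  simp only [real_inner_smul_left, real_inner_smul_right] at h
  simp only [one_mul]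
  have e : ∀ i j, t * (t * ⟪z i, z j⟫) = t ^ 2 * ⟪z i, z j⟫ := fun i j => by ring
  simp only [e] at h
  exact h

lemma SS_pow8 (g : ι → ℝ) (z : ι → Sp d) :
    SS g z 3 ^ 8 ≤ SS g z 1 ^ 7 * SS g z 6561 := by
  have h1 := SS_cs g z 3
  have h2 := SS_cs g z 9
  have h3 := SS_cs g z 81
  norm_num at h1 h2 h3
  have a0 : 0 ≤ SS g z 1 := SS_nonneg g z (by norm_num)
  have b0 : 0 ≤ SS g z 9 := SS_nonneg g z (by norm_num)
  have c0 : 0 ≤ SS g z 81 := SS_nonneg g z (by norm_num)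
  calc SS g z 3 ^ 8 = (SS g z 3 ^ 2) ^ 4 := by ring
    _ ≤ (SS g z 1 * SS g z 9) ^ 4 := pow_le_pow_left₀ (sq_nonneg _) h1 4
    _ = SS g z 1 ^ 4 * (SS g z 9 ^ 2) ^ 2 := by ring
    _ ≤ SS g z 1 ^ 4 * (SS g z 1 * SS g z 81) ^ 2 :=
        mul_le_mul_of_nonneg_left (pow_le_pow_left₀ (sq_nonneg _) h2 2) (pow_nonneg a0 4)
    _ = SS g z 1 ^ 6 * SS g z 81 ^ 2 := by ring
    _ ≤ SS g z 1 ^ 6 * (SS g z 1 * SS g z 6561) :=
        mul_le_mul_of_nonneg_left h3 (pow_nonneg a0 6)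
    _ = _ := by ring

/-- `1 ≤ exp ⟨t, t'⟩` as kernels -/
lemma psd_sub_one {κ : Type*} [Fintype κ] (c : κ → ℝ) (t : κ → Sp d) :
    0 ≤ ∑ i, ∑ j, c i * c j * (exp ⟪t i, t j⟫ - 1) := by
  have h := psd (fun k : κ ⊕ Unit => Sum.elim c (fun _ => -∑ i, c i) k)
    (fun k : κ ⊕ Unit => Sum.elim t (fun _ => 0) k)
  simp only [Fintype.sum_sum_type, Sum.elim_inl, Sum.elim_inr, Finset.sum_add_distrib,
    inner_zero_left, inner_zero_right, exp_zero, mul_one, Finset.univ_unique,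
    Finset.sum_singleton] at h
  have e1 : ∑ i, ∑ j, c i * c j * (exp ⟪t i, t j⟫ - 1) =
      ∑ i, ∑ j, c i * c j * exp ⟪t i, t j⟫ - (∑ i, c i) * ∑ i, c i := by
    rw [Finset.sum_mul_sum, ← Finset.sum_sub_distrib]
    refine Finset.sum_congr rfl fun i _ => ?_
    rw [← Finset.sum_sub_distrib]
    refine Finset.sum_congr rfl fun j _ => ?_
    ring
  rw [e1]
  have e2 : ∑ x, c x * -∑ i, c i = -((∑ i, c i) * ∑ i, c i) := by
    rw [← Finset.sum_mul]; ring
  have e3 : ∑ x, (-∑ i, c i) * c x = -((∑ i, c i) * ∑ i, c i) := by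
    rw [← Finset.mul_sum]; ring
  rw [e2, e3] at h
  linarith

lemma schur_one {κ : Type*} [Fintype κ] (G : κ → ℝ) (s t : κ → Sp d) :
    ∑ i, ∑ j, G i * G j * exp ⟪s i, s j⟫ ≤
      ∑ i, ∑ j, G i * G j * exp (⟪s i, s j⟫ + ⟪t i, t j⟫) := by
  have h := int_pos2 (fun i j => G i * G j * (exp ⟪t i, t j⟫ - 1)) s (by
    intro x
    have := psd_sub_one (fun i => G i * ee (s i) x) t
    refine this.trans_eq ?_
    refine Finset.sum_congr rfl fun i _ => Finset.sum_congr rfl fun j _ => ?_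
    ring)
  have e : ∑ i, ∑ j, G i * G j * (exp ⟪t i, t j⟫ - 1) * exp ⟪s i, s j⟫ =
      ∑ i, ∑ j, G i * G j * exp (⟪s i, s j⟫ + ⟪t i, t j⟫) -
      ∑ i, ∑ j, G i * G j * exp ⟪s i, s j⟫ := by
    rw [← Finset.sum_sub_distrib]
    refine Finset.sum_congr rfl fun i _ => ?_
    rw [← Finset.sum_sub_distrib]
    refine Finset.sum_congr rfl fun j _ => ?_
    rw [exp_add]
    ring
  rw [e] at h
  linarith

/-- the sum over the four-cycle -/
lemma cycle (g : ι → ℝ) (z : ι → Sp d) :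
    ∑ i, ∑ k, ∑ j, ∑ l, g i * g k * g j * g l *
      (exp ⟪z i, z j⟫ * exp ⟪z k, z l⟫ * exp (2 * ⟪z j, z l⟫)) * exp (2 * ⟪z i, z k⟫) ≤
      SS g z 3 ^ 2 := by
  obtain ⟨w, hw⟩ : ∃ w : ι → Sp d, w = fun i => √2 • z i := ⟨_, rfl⟩
  have hww : ∀ i j, exp ⟪w i, w j⟫ = exp (2 * ⟪z i, z j⟫) := by
    intro i j
    rw [hw]
    simp only [real_inner_smul_left, real_inner_smul_right]
    rw [← mul_assoc, mul_self_sqrt (by norm_num)]
  have h3 : ∀ i j, exp ⟪z i, z j⟫ * exp (2 * ⟪z i, z j⟫) = exp (3 * ⟪z i, z j⟫) := by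
    intro i j; rw [← exp_add]; congr 1; ring
  have hS : SS g z 3 = ∑ i, ∑ j, g i * g j * exp ⟪z i, z j⟫ * exp ⟪w i, w j⟫ := by
    unfold SS
    refine Finset.sum_congr rfl fun i _ => Finset.sum_congr rfl fun j _ => ?_
    rw [hww, ← h3]; ring
  -- step 1
  have step1 : ∀ c : Sp d,
      ∑ j, ∑ l, (∑ i, g i * ee (w i) c * g j * exp ⟪z i, z j⟫) *
        (∑ i, g i * ee (w i) c * g l * exp ⟪z i, z l⟫) * exp ⟪w j, w l⟫ ≤
      (∑ i, ∑ k, g i * ee (w i) c * (g k * ee (w k) c) * exp ⟪z i, z k⟫) * SS g z 3 := by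
    intro c
    obtain ⟨Bcc, hB⟩ : ∃ B, B = ∑ i, ∑ k, g i * ee (w i) c * (g k * ee (w k) c) *
      exp ⟪z i, z k⟫ := ⟨_, rfl⟩
    obtain ⟨b, hb⟩ : ∃ b : ι → ℝ, b = fun j => ∑ i, g i * ee (w i) c * g j * exp ⟪z i, z j⟫ :=
      ⟨_, rfl⟩
    have hb' : ∀ j, ∑ i, g i * ee (w i) c * g j * exp ⟪z i, z j⟫ = b j := fun j => by rw [hb]
    simp only [hb']
    rw [← hB]
    have h := int_pos2 (fun j l => Bcc * (g j * g l * exp ⟪z j, z l⟫) - b j * b l) w (by
      intro x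
      have h1 := kcs (fun i => g i * ee (w i) c) (fun j => g j * ee (w j) x) z z
      have e1 : ∑ i, ∑ j, g i * ee (w i) c * (g j * ee (w j) x) * exp ⟪z i, z j⟫ =
          ∑ j, b j * ee (w j) x := by
        rw [Finset.sum_comm]
        refine Finset.sum_congr rfl fun j _ => ?_
        rw [hb, Finset.sum_mul]
        refine Finset.sum_congr rfl fun i _ => ?_
        ring
      rw [e1, ← hB] at h1
      have e2 : ∑ i, ∑ j, (Bcc * (g i * g j * exp ⟪z i, z j⟫) - b i * b j) *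
          (ee (w i) x * ee (w j) x) =
          Bcc * (∑ i, ∑ j, g i * ee (w i) x * (g j * ee (w j) x) * exp ⟪z i, z j⟫) -
          (∑ j, b j * ee (w j) x) ^ 2 := by
        rw [sq, Finset.sum_mul_sum]
        simp only [Finset.mul_sum, ← Finset.sum_sub_distrib]
        refine Finset.sum_congr rfl fun i _ => Finset.sum_congr rfl fun j _ => ?_
        ring
      rw [e2]
      linarith)
    have e3 : ∑ i, ∑ j, (Bcc * (g i * g j * exp ⟪z i, z j⟫) - b i * b j) * exp ⟪w i, w j⟫ =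
        Bcc * SS g z 3 - ∑ j, ∑ l, b j * b l * exp ⟪w j, w l⟫ := by
      rw [hS, Finset.mul_sum, ← Finset.sum_sub_distrib]
      refine Finset.sum_congr rfl fun i _ => ?_
      rw [Finset.mul_sum, ← Finset.sum_sub_distrib]
      refine Finset.sum_congr rfl fun j _ => ?_
      ring
    rw [e3] at h
    linarith
  have h := int_pos2 (fun i k => SS g z 3 * (g i * g k * exp ⟪z i, z k⟫) -
      ∑ j, ∑ l, g i * g k * g j * g l *
        (exp ⟪z i, z j⟫ * exp ⟪z k, z l⟫ * exp (2 * ⟪z j, z l⟫))) w (by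
    intro x
    have h1 := step1 x
    have e1 : ∑ j, ∑ l, (∑ i, g i * ee (w i) x * g j * exp ⟪z i, z j⟫) *
        (∑ i, g i * ee (w i) x * g l * exp ⟪z i, z l⟫) * exp ⟪w j, w l⟫ =
        ∑ i, ∑ k, (∑ j, ∑ l, g i * g k * g j * g l *
        (exp ⟪z i, z j⟫ * exp ⟪z k, z l⟫ * exp (2 * ⟪z j, z l⟫))) *
          (ee (w i) x * ee (w k) x) := by
      have a1 : ∀ j l, (∑ i, g i * ee (w i) x * g j * exp ⟪z i, z j⟫) *
          (∑ i, g i * ee (w i) x * g l * exp ⟪z i, z l⟫) * exp ⟪w j, w l⟫ =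
          ∑ i, ∑ k, (g i * g k * g j * g l *
            (exp ⟪z i, z j⟫ * exp ⟪z k, z l⟫ * exp (2 * ⟪z j, z l⟫))) *
            (ee (w i) x * ee (w k) x) := by
        intro j l
        rw [Finset.sum_mul_sum, Finset.sum_mul]
        refine Finset.sum_congr rfl fun i _ => ?_
        rw [Finset.sum_mul]
        refine Finset.sum_congr rfl fun k _ => ?_
        rw [hww]
        ring
      calc _ = ∑ j, ∑ l, ∑ i, ∑ k, (g i * g k * g j * g l *
            (exp ⟪z i, z j⟫ * exp ⟪z k, z l⟫ * exp (2 * ⟪z j, z l⟫))) *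
            (ee (w i) x * ee (w k) x) :=
              Finset.sum_congr rfl fun j _ => Finset.sum_congr rfl fun l _ => a1 j l
        _ = ∑ j, ∑ i, ∑ l, ∑ k, (g i * g k * g j * g l *
            (exp ⟪z i, z j⟫ * exp ⟪z k, z l⟫ * exp (2 * ⟪z j, z l⟫))) *
            (ee (w i) x * ee (w k) x) := by
              refine Finset.sum_congr rfl fun j _ => ?_
              rw [Finset.sum_comm]
        _ = ∑ i, ∑ j, ∑ l, ∑ k, (g i * g k * g j * g l *
            (exp ⟪z i, z j⟫ * exp ⟪z k, z l⟫ * exp (2 * ⟪z j, z l⟫))) *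
            (ee (w i) x * ee (w k) x) := Finset.sum_comm
        _ = ∑ i, ∑ j, ∑ k, ∑ l, (g i * g k * g j * g l *
            (exp ⟪z i, z j⟫ * exp ⟪z k, z l⟫ * exp (2 * ⟪z j, z l⟫))) *
            (ee (w i) x * ee (w k) x) := by
              refine Finset.sum_congr rfl fun i _ => Finset.sum_congr rfl fun j _ => ?_
              rw [Finset.sum_comm]
        _ = ∑ i, ∑ k, ∑ j, ∑ l, (g i * g k * g j * g l *
            (exp ⟪z i, z j⟫ * exp ⟪z k, z l⟫ * exp (2 * ⟪z j, z l⟫))) *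
            (ee (w i) x * ee (w k) x) := by
              refine Finset.sum_congr rfl fun i _ => ?_
              rw [Finset.sum_comm]
        _ = _ := by simp only [Finset.sum_mul]
    rw [e1] at h1
    have e2 : ∑ i, ∑ k, (SS g z 3 * (g i * g k * exp ⟪z i, z k⟫) -
        ∑ j, ∑ l, g i * g k * g j * g l *
        (exp ⟪z i, z j⟫ * exp ⟪z k, z l⟫ * exp (2 * ⟪z j, z l⟫))) *
        (ee (w i) x * ee (w k) x) =
        (∑ i, ∑ k, g i * ee (w i) x * (g k * ee (w k) x) * exp ⟪z i, z k⟫) * SS g z 3 -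
        ∑ i, ∑ k, (∑ j, ∑ l, g i * g k * g j * g l *
        (exp ⟪z i, z j⟫ * exp ⟪z k, z l⟫ * exp (2 * ⟪z j, z l⟫))) *
          (ee (w i) x * ee (w k) x) := by
      rw [Finset.sum_mul, ← Finset.sum_sub_distrib]
      refine Finset.sum_congr rfl fun i _ => ?_
      rw [Finset.sum_mul, ← Finset.sum_sub_distrib]
      refine Finset.sum_congr rfl fun k _ => ?_
      ring
    rw [e2]
    linarith)
  have e4 : ∑ i, ∑ k, (SS g z 3 * (g i * g k * exp ⟪z i, z k⟫) -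
      ∑ j, ∑ l, g i * g k * g j * g l *
        (exp ⟪z i, z j⟫ * exp ⟪z k, z l⟫ * exp (2 * ⟪z j, z l⟫))) * exp ⟪w i, w k⟫ =
      SS g z 3 * SS g z 3 - ∑ i, ∑ k, ∑ j, ∑ l, g i * g k * g j * g l *
      (exp ⟪z i, z j⟫ * exp ⟪z k, z l⟫ * exp (2 * ⟪z j, z l⟫)) * exp (2 * ⟪z i, z k⟫) := by
    conv_rhs => rw [show SS g z 3 * SS g z 3 = SS g z 3 *
      ∑ i, ∑ j, g i * g j * exp ⟪z i, z j⟫ * exp ⟪w i, w j⟫ by rw [← hS]]
    rw [Finset.mul_sum, ← Finset.sum_sub_distrib]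
    refine Finset.sum_congr rfl fun i _ => ?_
    rw [Finset.mul_sum, ← Finset.sum_sub_distrib]
    refine Finset.sum_congr rfl fun k _ => ?_
    rw [sub_mul, Finset.sum_mul, hww]
    congr 1
    · ring
    · refine Finset.sum_congr rfl fun j _ => ?_
      rw [Finset.sum_mul]
  rw [e4] at h
  rw [sq]
  linarith

/-- fourth moment -/
lemma fourth (g : ι → ℝ) (z : ι → Sp d) :
    Integrable (fun x => (∑ i, g i * ee (z i) x) ^ 4 * rho x) ∧
    ∫ x, (∑ i, g i * ee (z i) x) ^ 4 * rho x ≤ SS g z 3 ^ 2 := by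
  obtain ⟨G, hG⟩ : ∃ G : ι × ι → ℝ, G = fun p => g p.1 * g p.2 * exp ⟪z p.1, z p.2⟫ := ⟨_, rfl⟩
  have h2 : ∀ x, (∑ i, g i * ee (z i) x) ^ 2 = ∑ p : ι × ι, G p * ee (z p.1 + z p.2) x := by
    intro x
    rw [sq, Finset.sum_mul_sum, ← Fintype.sum_prod_type']
    refine Finset.sum_congr rfl fun p _ => ?_
    rw [hG]
    have := ee_mul (z p.1) (z p.2) x
    calc g p.1 * ee (z p.1) x * (g p.2 * ee (z p.2) x)
        = g p.1 * g p.2 * (ee (z p.1) x * ee (z p.2) x) := by ring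
      _ = _ := by rw [this]; ring
  have h4 : (fun x => (∑ i, g i * ee (z i) x) ^ 4 * rho x) =
      fun x => (∑ k : (ι × ι) × (ι × ι), (G k.1 * G k.2) *
        (ee (z k.1.1 + z k.1.2) x * ee (z k.2.1 + z k.2.2) x)) * rho x := by
    ext x
    congr 1
    rw [show (∑ i, g i * ee (z i) x) ^ 4 = (∑ i, g i * ee (z i) x) ^ 2 *
      (∑ i, g i * ee (z i) x) ^ 2 by ring, h2, Finset.sum_mul_sum, ← Fintype.sum_prod_type']
    refine Finset.sum_congr rfl fun k _ => ?_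
    ring
  have h5 := hasIntegral (Finset.univ : Finset ((ι × ι) × (ι × ι))) (fun k => G k.1 * G k.2)
    (fun k => z k.1.1 + z k.1.2) (fun k => z k.2.1 + z k.2.2)
  rw [h4]
  refine ⟨h5.1, ?_⟩
  rw [h5.2, Fintype.sum_prod_type' (f := fun (a b : ι × ι) => G a * G b *
    exp ⟪z a.1 + z a.2, z b.1 + z b.2⟫)]
  refine (schur_one G (fun p => z p.1 + z p.2) (fun p => z p.1 - z p.2)).trans ?_
  refine le_trans (le_of_eq ?_) (cycle g z)
  rw [Fintype.sum_prod_type]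
  refine Finset.sum_congr rfl fun i _ => ?_
  have : ∀ j, ∑ b : ι × ι, G (i, j) * G b *
      exp (⟪z (i, j).1 + z (i, j).2, z b.1 + z b.2⟫ + ⟪z (i, j).1 - z (i, j).2, z b.1 - z b.2⟫) =
      ∑ k, ∑ l, g i * g k * g j * g l *
      (exp ⟪z i, z j⟫ * exp ⟪z k, z l⟫ * exp (2 * ⟪z j, z l⟫)) * exp (2 * ⟪z i, z k⟫) := by
    intro j
    rw [Fintype.sum_prod_type]
    refine Finset.sum_congr rfl fun k _ => Finset.sum_congr rfl fun l _ => ?_
    rw [hG]
    have e : ⟪z i + z j, z k + z l⟫ + ⟪z i - z j, z k - z l⟫ =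
        2 * ⟪z j, z l⟫ + 2 * ⟪z i, z k⟫ := by
      simp only [inner_add_left, inner_add_right, inner_sub_left, inner_sub_right]
      ring
    simp only []
    rw [e, exp_add]
    ring
  simp only [this]
  rw [Finset.sum_comm]

lemma second (g : ι → ℝ) (z : ι → Sp d) :
    Integrable (fun x => (∑ i, g i * ee (z i) x) ^ 2 * rho x) ∧
    ∫ x, (∑ i, g i * ee (z i) x) ^ 2 * rho x = SS g z 1 := by
  have h4 : (fun x => (∑ i, g i * ee (z i) x) ^ 2 * rho x) =
      fun x => (∑ k : ι × ι, (g k.1 * g k.2) * (ee (z k.1) x * ee (z k.2) x)) * rho x := by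
    ext x
    congr 1
    rw [sq, Finset.sum_mul_sum, ← Fintype.sum_prod_type']
    refine Finset.sum_congr rfl fun k _ => ?_
    ring
  have h5 := hasIntegral (Finset.univ : Finset (ι × ι)) (fun k => g k.1 * g k.2)
    (fun k => z k.1) (fun k => z k.2)
  rw [h4]
  refine ⟨h5.1, ?_⟩
  rw [h5.2]
  unfold SS
  rw [Fintype.sum_prod_type' (f := fun i j => g i * g j * exp ⟪z i, z j⟫)]
  simp only [one_mul]

end Pool.Agent.Q280.GM
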