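import Pool.Agent.Q280.GM.Fin

set_option autoImplicit false

/-!
The comparison of divergences for arbitrary mixing measures supported in a ball.
-/

open MeasureTheory Real Filter Topology Metric
open scoped RealInnerProductSpace

namespace Pool.Agent.Q280.GM

variable {d : ℕ}

/-- density of `μ * N(0, I_d)` -/
noncomputable def mix (μ : Measure (Sp d)) (x : Sp d) : ℝ := ∫ z, rho (x - z) ∂μ

/-- the same for the image of `μ` under a simple function -/
noncomputable def mixs (μ : Measure (Sp d)) (r : SimpleFunc (Sp d) (Sp d)) (x : Sp d) : ℝ :=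
  ∫ z, rho (x - r z) ∂μ

/-- codomain restriction -/
def rr (r : SimpleFunc (Sp d) (Sp d)) (z : Sp d) : r.range := ⟨r z, r.mem_range_self z⟩

lemma measurable_rr (r : SimpleFunc (Sp d) (Sp d)) : Measurable (rr r) :=
  r.measurable.subtype_mk

/-- weights -/
noncomputable def wt (μ : Measure (Sp d)) (r : SimpleFunc (Sp d) (Sp d)) (w : r.range) : ℝ :=
  (μ.map (rr r)).real {w}

lemma wt_nonneg (μ : Measure (Sp d)) (r : SimpleFunc (Sp d) (Sp d)) (w : r.range) :
    0 ≤ wt μ r w := measureReal_nonneg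

lemma int_rr (μ : Measure (Sp d)) [IsProbabilityMeasure μ] (r : SimpleFunc (Sp d) (Sp d))
    (F : r.range → ℝ) : ∫ z, F (rr r z) ∂μ = ∑ w, wt μ r w * F w := by
  have : IsProbabilityMeasure (μ.map (rr r)) :=
    Measure.isProbabilityMeasure_map (measurable_rr r).aemeasurable
  rw [← integral_map (measurable_rr r).aemeasurable
    (measurable_of_countable F).aestronglyMeasurable, integral_fintype (.of_finite)]
  rfl

lemma wt_sum (μ : Measure (Sp d)) [IsProbabilityMeasure μ] (r : SimpleFunc (Sp d) (Sp d)) :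
    ∑ w, wt μ r w = 1 := by
  have := int_rr μ r (fun _ => 1)
  simpa using this.symm

lemma mixs_eq (μ : Measure (Sp d)) [IsProbabilityMeasure μ] (r : SimpleFunc (Sp d) (Sp d))
    (x : Sp d) : mixs μ r x = mr (wt μ r) (fun w => (w : Sp d)) x * rho x := by
  have := int_rr μ r (fun w => rho (x - (w : Sp d)))
  unfold mixs mr
  rw [Finset.sum_mul]
  refine this.trans (Finset.sum_congr rfl fun w _ => ?_)
  rw [rho_sub]; ring

/-- dominating function -/
noncomputable def DD (M : ℝ) (x : Sp d) : ℝ :=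
  (2 * π) ^ (-(d : ℝ) / 2) * exp (M ^ 2 / 2) * exp (-(1 / 4) * ‖x‖ ^ 2)

lemma integrable_DD (M : ℝ) : Integrable (DD M : Sp d → ℝ) :=
  (integrable_exp_half (by norm_num)).const_mul _

lemma rho_le_DD {M : ℝ} {x w : Sp d} (hw : ‖w‖ ≤ M) : rho (x - w) ≤ DD M x := by
  unfold rho DD
  rw [mul_assoc, ← exp_add]
  apply mul_le_mul_of_nonneg_left _ (by positivity)
  rw [exp_le_exp]
  have h1 : ‖x‖ ≤ ‖x - w‖ + ‖w‖ := by
    calc ‖x‖ = ‖(x - w) + w‖ := by rw [sub_add_cancel]
      _ ≤ _ := norm_add_le _ _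
  have h2 : ‖w‖ ^ 2 ≤ M ^ 2 := pow_le_pow_left₀ (norm_nonneg _) hw 2
  have h3 : ‖x‖ ^ 2 ≤ (‖x - w‖ + ‖w‖) ^ 2 := pow_le_pow_left₀ (norm_nonneg _) h1 2
  nlinarith [sq_nonneg (‖x - w‖ - ‖w‖)]

lemma rho_le (y : Sp d) : rho y ≤ (2 * π) ^ (-(d : ℝ) / 2) := by
  unfold rho
  apply mul_le_of_le_one_right (by positivity)
  rw [exp_le_one_iff]
  have := sq_nonneg ‖y‖
  linarith

lemma rho_ge {M : ℝ} {x w : Sp d} (hw : ‖w‖ ≤ M) :
    (2 * π) ^ (-(d : ℝ) / 2) * exp (-(‖x‖ + M) ^ 2 / 2) ≤ rho (x - w) := by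
  unfold rho
  apply mul_le_mul_of_nonneg_left _ (by positivity)
  rw [exp_le_exp]
  have h1 : ‖x - w‖ ≤ ‖x‖ + M := (norm_sub_le _ _).trans (by linarith)
  have h3 : ‖x - w‖ ^ 2 ≤ (‖x‖ + M) ^ 2 := pow_le_pow_left₀ (norm_nonneg _) h1 2
  linarith

section main

variable {M : ℝ} {μ ν : Measure (Sp d)} [IsProbabilityMeasure μ] [IsProbabilityMeasure ν]

lemma mix_pos (hμ : ∀ᵐ z ∂μ, ‖z‖ ≤ M) (x : Sp d) : 0 < mix μ x := by
  have h1 : 0 < (2 * π) ^ (-(d : ℝ) / 2) * exp (-(‖x‖ + M) ^ 2 / 2) := by positivity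
  have h2 : Integrable (fun z => rho (x - z)) μ := by
    refine (integrable_const ((2 * π) ^ (-(d : ℝ) / 2))).mono' ?_ (Eventually.of_forall fun z => ?_)
    · exact (continuous_rho.comp (continuous_const.sub continuous_id)).aestronglyMeasurable
    · rw [norm_of_nonneg (rho_pos _).le]; exact rho_le _
  calc 0 < (2 * π) ^ (-(d : ℝ) / 2) * exp (-(‖x‖ + M) ^ 2 / 2) := h1
    _ = ∫ _, (2 * π) ^ (-(d : ℝ) / 2) * exp (-(‖x‖ + M) ^ 2 / 2) ∂μ := by simp
    _ ≤ mix μ x := by
      refine integral_mono_ae (integrable_const _) h2 ?_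
      filter_upwards [hμ] with z hz using rho_ge hz

/-- approximating simple functions -/
noncomputable def rn (hM : 0 ≤ M) (n : ℕ) : SimpleFunc (Sp d) (Sp d) :=
  SimpleFunc.approxOn id measurable_id (closedBall (0 : Sp d) M) 0 (mem_closedBall_self hM) n

lemma rn_norm (hM : 0 ≤ M) (n : ℕ) (z : Sp d) : ‖rn hM n z‖ ≤ M := by
  have := SimpleFunc.approxOn_mem (f := (id : Sp d → Sp d)) measurable_id
    (mem_closedBall_self hM : (0 : Sp d) ∈ closedBall (0 : Sp d) M) n z
  rwa [mem_closedBall_zero_iff] at this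

lemma rn_tendsto (hM : 0 ≤ M) {z : Sp d} (hz : ‖z‖ ≤ M) :
    Tendsto (fun n => rn hM n z) atTop (𝓝 z) := by
  have := SimpleFunc.tendsto_approxOn (f := (id : Sp d → Sp d)) measurable_id
    (mem_closedBall_self hM : (0 : Sp d) ∈ closedBall (0 : Sp d) M) (x := z)
    (subset_closure (by simpa using hz))
  exact this

lemma mixs_tendsto (hM : 0 ≤ M) (hμ : ∀ᵐ z ∂μ, ‖z‖ ≤ M) (x : Sp d) :
    Tendsto (fun n => mixs μ (rn hM n) x) atTop (𝓝 (mix μ x)) := by
  refine tendsto_integral_of_dominated_convergence (fun _ => (2 * π) ^ (-(d : ℝ) / 2)) ?_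
    (integrable_const _) ?_ ?_
  · intro n
    exact (continuous_rho.measurable.comp
      (measurable_const.sub (rn hM n).measurable)).aestronglyMeasurable
  · intro n
    refine Eventually.of_forall fun z => ?_
    rw [norm_of_nonneg (rho_pos _).le]; exact rho_le _
  · filter_upwards [hμ] with z hz
    exact (continuous_rho.tendsto _).comp (tendsto_const_nhds.sub (rn_tendsto hM hz))

lemma mixs_le (hM : 0 ≤ M) (n : ℕ) (x : Sp d) : mixs μ (rn hM n) x ≤ DD M x := by
  have h2 : Integrable (fun z => rho (x - rn hM n z)) μ := by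
    refine (integrable_const ((2 * π) ^ (-(d : ℝ) / 2))).mono' ?_ (Eventually.of_forall fun z => ?_)
    · exact (continuous_rho.measurable.comp
        (measurable_const.sub (rn hM n).measurable)).aestronglyMeasurable
    · rw [norm_of_nonneg (rho_pos _).le]; exact rho_le _
  calc mixs μ (rn hM n) x ≤ ∫ _, DD M x ∂μ :=
        integral_mono h2 (integrable_const _) fun z => rho_le_DD (rn_norm hM n z)
    _ = DD M x := by simp

lemma mixs_pos (hM : 0 ≤ M) (n : ℕ) (x : Sp d) : 0 < mixs μ (rn hM n) x := by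
  rw [mixs_eq]
  exact mul_pos (mr_pos (wt_nonneg μ _) (wt_sum μ _) _ _) (rho_pos x)

lemma continuous_mixs (hM : 0 ≤ M) (n : ℕ) : Continuous (mixs μ (rn (d := d) hM n)) := by
  have : mixs μ (rn (d := d) hM n) =
      fun x => mr (wt μ (rn hM n)) (fun w => (w : Sp d)) x * rho x := by
    ext x; exact mixs_eq μ _ x
  rw [this]
  exact (continuous_mr _ _).mul continuous_rho

lemma mixs_int (hM : 0 ≤ M) (n : ℕ) : Integrable (mixs μ (rn (d := d) hM n)) ∧
    ∫ x, mixs μ (rn (d := d) hM n) x = 1 := by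
  have : mixs μ (rn (d := d) hM n) =
      fun x => mr (wt μ (rn hM n)) (fun w => (w : Sp d)) x * rho x := by
    ext x; exact mixs_eq μ _ x
  rw [this]
  exact int_mr (wt_sum μ _) _

lemma measurable_mix (hM : 0 ≤ M) (hμ : ∀ᵐ z ∂μ, ‖z‖ ≤ M) : Measurable (mix μ) := by
  refine measurable_of_tendsto_metrizable (fun n => (continuous_mixs (μ := μ) hM n).measurable) ?_
  rw [tendsto_pi_nhds]
  exact fun x => mixs_tendsto hM hμ x

lemma mix_le (hM : 0 ≤ M) (hμ : ∀ᵐ z ∂μ, ‖z‖ ≤ M) (x : Sp d) : mix μ x ≤ DD M x :=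
  le_of_tendsto' (mixs_tendsto hM hμ x) fun n => mixs_le hM n x

lemma mix_int (hM : 0 ≤ M) (hμ : ∀ᵐ z ∂μ, ‖z‖ ≤ M) : Integrable (mix μ) ∧ ∫ x, mix μ x = 1 := by
  have hI : Integrable (mix μ) := by
    refine (integrable_DD M).mono' (measurable_mix hM hμ).aestronglyMeasurable
      (Eventually.of_forall fun x => ?_)
    rw [norm_of_nonneg (mix_pos hμ x).le]
    exact mix_le hM hμ x
  refine ⟨hI, ?_⟩
  have h : Tendsto (fun n => ∫ x, mixs μ (rn (d := d) hM n) x) atTop (𝓝 (∫ x, mix μ x)) := by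
    refine tendsto_integral_of_dominated_convergence (DD M) ?_ (integrable_DD M) ?_ ?_
    · exact fun n => (continuous_mixs hM n).aestronglyMeasurable
    · intro n
      refine Eventually.of_forall fun x => ?_
      rw [norm_of_nonneg (mixs_pos hM n x).le]
      exact mixs_le hM n x
    · exact Eventually.of_forall fun x => mixs_tendsto hM hμ x
  simp only [(mixs_int (μ := μ) hM _).2] at h
  exact tendsto_nhds_unique h tendsto_const_nhds |>.symm ▸ rfl

/-- the integrands -/
noncomputable def chiI (f g : Sp d → ℝ) (x : Sp d) : ℝ := (f x - g x) ^ 2 / g x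

/-- the integrands -/
noncomputable def helI (f g : Sp d → ℝ) (x : Sp d) : ℝ := (√(f x) - √(g x)) ^ 2

lemma bound_n (hM : 0 ≤ M) (n : ℕ) :
    Integrable (chiI (mixs μ (rn (d := d) hM n)) (mixs ν (rn hM n))) ∧
    ∫ x, chiI (mixs μ (rn (d := d) hM n)) (mixs ν (rn hM n)) x ≤
      CM M * ∫ x, helI (mixs μ (rn (d := d) hM n)) (mixs ν (rn hM n)) x := by
  have h := finite_bound (wt_nonneg μ (rn (d := d) hM n)) (wt_nonneg ν (rn hM n))
    (wt_sum μ _) (wt_sum ν _) (fun w => (w : Sp d)) (M := M) (by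
      rintro ⟨w, hw⟩
      obtain ⟨z, rfl⟩ := SimpleFunc.mem_range.mp hw
      exact rn_norm hM n z)
  have e1 : chiI (mixs μ (rn (d := d) hM n)) (mixs ν (rn hM n)) = fun x =>
      (mr (wt μ (rn hM n)) (fun w => (w : Sp d)) x -
        mr (wt ν (rn hM n)) (fun w => (w : Sp d)) x) ^ 2 /
        mr (wt ν (rn hM n)) (fun w => (w : Sp d)) x * rho x := by
    ext x
    unfold chiI
    rw [mixs_eq, mixs_eq]
    have h1 := (rho_pos x).ne'
    have h2 := (mr_pos (wt_nonneg ν (rn hM n)) (wt_sum ν _) (fun w => (w : Sp d)) x).ne'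
    field_simp
  have e2 : helI (mixs μ (rn (d := d) hM n)) (mixs ν (rn hM n)) = fun x =>
      (√(mr (wt μ (rn hM n)) (fun w => (w : Sp d)) x) -
        √(mr (wt ν (rn hM n)) (fun w => (w : Sp d)) x)) ^ 2 * rho x := by
    ext x
    unfold helI
    rw [mixs_eq, mixs_eq, sqrt_mul (mr_nonneg (wt_nonneg μ _) _ _),
      sqrt_mul (mr_nonneg (wt_nonneg ν _) _ _), ← sub_mul, mul_pow, sq_sqrt (rho_pos x).le]
  rw [e1, e2]
  exact h

lemma helI_le {a b : ℝ} (ha : 0 ≤ a) (hb : 0 ≤ b) : (√a - √b) ^ 2 ≤ a + b := by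
  have a1 := mul_self_sqrt ha
  have a2 := mul_self_sqrt hb
  have a3 := mul_nonneg (sqrt_nonneg a) (sqrt_nonneg b)
  nlinarith

/-- chi-squared divergence against squared Hellinger distance -/
theorem chi_bound (hM : 0 ≤ M) (hμ : ∀ᵐ z ∂μ, ‖z‖ ≤ M) (hν : ∀ᵐ z ∂ν, ‖z‖ ≤ M) :
    Integrable (chiI (mix μ) (mix ν)) ∧
    ∫ x, chiI (mix μ) (mix ν) x ≤ CM M * ∫ x, helI (mix μ) (mix ν) x := by
  have hfm := measurable_mix hM hμ
  have hgm := measurable_mix hM hν
  have hχm : Measurable (chiI (mix μ) (mix ν)) := ((hfm.sub hgm).pow_const 2).div hgm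
  have hχ0 : ∀ x, 0 ≤ chiI (mix μ) (mix ν) x := fun x =>
    div_nonneg (sq_nonneg _) (mix_pos hν x).le
  have hχn0 : ∀ n x, 0 ≤ chiI (mixs μ (rn (d := d) hM n)) (mixs ν (rn hM n)) x := fun n x =>
    div_nonneg (sq_nonneg _) (mixs_pos hM n x).le
  have hlim : ∀ x, Tendsto (fun n => chiI (mixs μ (rn (d := d) hM n)) (mixs ν (rn hM n)) x) atTop
      (𝓝 (chiI (mix μ) (mix ν) x)) := fun x =>
    (((mixs_tendsto hM hμ x).sub (mixs_tendsto hM hν x)).pow 2).div (mixs_tendsto hM hν x)
      (mix_pos hν x).ne'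
  have hH : Tendsto (fun n => ∫ x, helI (mixs μ (rn (d := d) hM n)) (mixs ν (rn hM n)) x) atTop
      (𝓝 (∫ x, helI (mix μ) (mix ν) x)) := by
    refine tendsto_integral_of_dominated_convergence (fun x => DD M x + DD M x) ?_
      ((integrable_DD M).add (integrable_DD M)) ?_ ?_
    · intro n
      exact (((continuous_mixs hM n).sqrt.sub (continuous_mixs hM n).sqrt).pow
        2).aestronglyMeasurable
    · intro n
      refine Eventually.of_forall fun x => ?_
      unfold helI
      rw [norm_of_nonneg (sq_nonneg _)]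
      exact (helI_le (mixs_pos hM n x).le (mixs_pos hM n x).le).trans
        (add_le_add (mixs_le hM n x) (mixs_le hM n x))
    · exact Eventually.of_forall fun x =>
        ((mixs_tendsto hM hμ x).sqrt.sub (mixs_tendsto hM hν x).sqrt).pow 2
  have hfat : ∫⁻ x, ENNReal.ofReal (chiI (mix μ) (mix ν) x) ≤
      ENNReal.ofReal (CM M * ∫ x, helI (mix μ) (mix ν) x) := by
    calc ∫⁻ x, ENNReal.ofReal (chiI (mix μ) (mix ν) x)
        = ∫⁻ x, liminf (fun n => ENNReal.ofReal
            (chiI (mixs μ (rn (d := d) hM n)) (mixs ν (rn hM n)) x)) atTop := by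
          refine lintegral_congr fun x => ?_
          exact ((ENNReal.continuous_ofReal.tendsto _).comp (hlim x)).liminf_eq.symm
      _ ≤ liminf (fun n => ∫⁻ x, ENNReal.ofReal
            (chiI (mixs μ (rn (d := d) hM n)) (mixs ν (rn hM n)) x)) atTop := by
          refine lintegral_liminf_le fun n => ?_
          refine ENNReal.measurable_ofReal.comp ?_
          exact (((continuous_mixs hM n).measurable.sub
            (continuous_mixs hM n).measurable).pow_const 2).div (continuous_mixs hM n).measurable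
      _ ≤ liminf (fun n => ENNReal.ofReal
            (CM M * ∫ x, helI (mixs μ (rn (d := d) hM n)) (mixs ν (rn hM n)) x)) atTop := by
          refine liminf_le_liminf (Eventually.of_forall fun n => ?_)
          obtain ⟨i1, i2⟩ := bound_n (μ := μ) (ν := ν) (d := d) hM n
          rw [← ofReal_integral_eq_lintegral_ofReal i1 (Eventually.of_forall (hχn0 n))]
          exact ENNReal.ofReal_le_ofReal i2
      _ = _ := ((ENNReal.continuous_ofReal.tendsto _).comp (hH.const_mul (CM M))).liminf_eq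
  have hI : Integrable (chiI (mix μ) (mix ν)) := by
    refine ⟨hχm.aestronglyMeasurable, ?_⟩
    rw [hasFiniteIntegral_iff_ofReal (Eventually.of_forall hχ0)]
    exact hfat.trans_lt ENNReal.ofReal_lt_top
  refine ⟨hI, ?_⟩
  have hH0 : 0 ≤ CM M * ∫ x, helI (mix μ) (mix ν) x :=
    mul_nonneg (one_le_CM M) (integral_nonneg fun x => sq_nonneg _)
  rw [← ENNReal.ofReal_le_ofReal_iff hH0,
    ofReal_integral_eq_lintegral_ofReal hI (Eventually.of_forall hχ0)]
  exact hfat

/-- the Kullback-Leibler divergence is at most the chi-squared divergence -/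
theorem kl_bound (hM : 0 ≤ M) (hμ : ∀ᵐ z ∂μ, ‖z‖ ≤ M) (hν : ∀ᵐ z ∂ν, ‖z‖ ≤ M) :
    Integrable (fun x => mix μ x * log (mix μ x / mix ν x)) ∧
    ∫ x, mix μ x * log (mix μ x / mix ν x) ≤ ∫ x, chiI (mix μ) (mix ν) x := by
  obtain ⟨hχ, -⟩ := chi_bound hM hμ hν
  obtain ⟨fI, f1⟩ := mix_int hM hμ
  obtain ⟨gI, g1⟩ := mix_int hM hν
  have hfm := measurable_mix hM hμ
  have hgm := measurable_mix hM hν
  have up : ∀ x, mix μ x * log (mix μ x / mix ν x) ≤
      chiI (mix μ) (mix ν) x + (mix μ x - mix ν x) := by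
    intro x
    have hf := mix_pos hμ x
    have hg := mix_pos hν x
    have h1 := log_le_sub_one_of_pos (div_pos hf hg)
    calc mix μ x * log (mix μ x / mix ν x) ≤ mix μ x * (mix μ x / mix ν x - 1) :=
          mul_le_mul_of_nonneg_left h1 hf.le
      _ = chiI (mix μ) (mix ν) x + (mix μ x - mix ν x) := by
          unfold chiI; field_simp; ring
  have lo : ∀ x, mix μ x - mix ν x ≤ mix μ x * log (mix μ x / mix ν x) := by
    intro x
    have hf := mix_pos hμ x
    have hg := mix_pos hν x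
    have h1 := log_le_sub_one_of_pos (div_pos hg hf)
    have h2 : log (mix μ x / mix ν x) = -log (mix ν x / mix μ x) := by
      rw [← log_inv, inv_div]
    rw [h2]
    have h3 := mul_le_mul_of_nonneg_left h1 hf.le
    have h4 : mix μ x * (mix ν x / mix μ x - 1) = mix ν x - mix μ x := by field_simp
    linarith
  have hI : Integrable (fun x => mix μ x * log (mix μ x / mix ν x)) := by
    refine ((hχ.add (fI.add gI))).mono' ?_ (Eventually.of_forall fun x => ?_)
    · exact (hfm.mul (hfm.div hgm).log).aestronglyMeasurable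
    · have hf := mix_pos hμ x
      have hg := mix_pos hν x
      have h0 : 0 ≤ chiI (mix μ) (mix ν) x := div_nonneg (sq_nonneg _) hg.le
      simp only [Pi.add_apply]
      rw [norm_eq_abs, abs_le]
      constructor
      · linarith [lo x]
      · linarith [up x]
  refine ⟨hI, ?_⟩
  have hs : Integrable (fun x => chiI (mix μ) (mix ν) x + (mix μ x - mix ν x)) :=
    hχ.add (fI.sub gI)
  have hfg : Integrable (fun x => mix μ x - mix ν x) := fI.sub gI
  refine (integral_mono hI hs up).trans_eq ?_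
  rw [integral_add hχ hfg, integral_sub fI gI, f1, g1]
  ring

end main

end Pool.Agent.Q280.GM
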